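import Mathlib

/-!
# Hénon maps `f(x, y) = (y, F(y) - δ x)` through prescribed integral values

Helper file: the map on the plane over a field, the model on `ℤ × ℤ` given by an arbitrary function
`s : ℤ → ℤ` in place of `F`, the transfer from the model to polynomials of any degree `d ≥ m` which
take the values `s` at `0, 1, ..., m - 1`, and the time reversal `(x, y) ↦ (y, x)`.
-/

set_option autoImplicit false

open Polynomial

namespace Pool.Agent.Q280.Hen

/-- The generalized Hénon map `f(x, y) = (y, F(y) - δ x)` on the plane over `K`. -/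
def henon {K : Type*} [Field K] (F : K[X]) (δ : K) (P : K × K) : K × K :=
  (P.2, F.eval P.2 - δ * P.1)

/-- The model on `ℤ × ℤ`. -/
def g (s : ℤ → ℤ) (P : ℤ × ℤ) : ℤ × ℤ := (P.2, s P.2 - P.1)

/-- Both coordinates are in `[0, m)`. -/
def Box (m : ℤ) (P : ℤ × ℤ) : Prop := 0 ≤ P.1 ∧ P.1 < m ∧ 0 ≤ P.2 ∧ P.2 < m

/-- A monic polynomial of degree `d ≥ m` with the prescribed values at `0, ..., m - 1`. -/
lemma exists_monic (s : ℤ → ℤ) (m d : ℕ) (h : m ≤ d) :
    ∃ F : ℚ[X], F.Monic ∧ F.natDegree = d ∧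
      ∀ i : ℤ, 0 ≤ i → i < m → F.eval (i : ℚ) = (s i : ℚ) := by
  classical
  set G : ℚ[X] := Lagrange.interpolate (Finset.range m) (fun i : ℕ => (i : ℚ))
    (fun i => (s (i : ℤ) : ℚ)) with hG
  have hinj : Set.InjOn (fun i : ℕ => (i : ℚ)) (Finset.range m : Set ℕ) := by
    intro a _ b _ hab
    exact Nat.cast_injective hab
  have hGdeg : G.degree < m := by
    have := Lagrange.degree_interpolate_lt (fun i : ℕ => (s (i : ℤ) : ℚ)) hinj
    simpa [hG] using this
  set P : ℚ[X] := (∏ i ∈ Finset.range m, (X - C (i : ℚ))) * X ^ (d - m) with hP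
  have hPm : P.Monic := by
    rw [hP]
    exact (monic_prod_of_monic _ _ (fun i _ => monic_X_sub_C _)).mul (monic_X_pow _)
  have hPd : P.natDegree = d := by
    rw [hP, (monic_prod_of_monic _ _ (fun i _ => monic_X_sub_C _)).natDegree_mul (monic_X_pow _),
      natDegree_X_pow, natDegree_prod_of_monic _ _ (fun i _ => monic_X_sub_C _)]
    have h1 : ∑ i ∈ Finset.range m, (X - C ((i : ℕ) : ℚ)).natDegree = m := by
      rw [Finset.sum_congr rfl (fun i _ => natDegree_X_sub_C _)]
      simp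
    rw [h1]
    omega
  have hlt : G.degree < P.degree := by
    rw [degree_eq_natDegree hPm.ne_zero, hPd]
    exact lt_of_lt_of_le hGdeg (by exact_mod_cast h)
  refine ⟨G + P, hPm.add_of_right hlt, ?_, ?_⟩
  · rw [natDegree_add_eq_right_of_degree_lt hlt, hPd]
  · intro i hi0 him
    obtain ⟨n, rfl⟩ := Int.eq_ofNat_of_zero_le hi0
    have hn : n ∈ Finset.range m := Finset.mem_range.2 (by exact_mod_cast him)
    have h1 : G.eval ((n : ℕ) : ℚ) = (s (n : ℤ) : ℚ) := by
      have := Lagrange.eval_interpolate_at_node (fun i : ℕ => (s (i : ℤ) : ℚ)) hinj hn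
      simpa [hG] using this
    have h2 : P.eval ((n : ℕ) : ℚ) = 0 := by
      rw [hP, eval_mul, eval_prod, Finset.prod_eq_zero hn (by simp), zero_mul]
    rw [eval_add]
    push_cast
    rw [h1, h2, add_zero]

/-- The integral point as a point over `K`. -/
def emb (K : Type*) [Field K] (P : ℤ × ℤ) : K × K := ((P.1 : K), (P.2 : K))

lemma emb_injective (K : Type*) [Field K] [CharZero K] : Function.Injective (emb K) := by
  intro P Q h
  have h1 := congrArg Prod.fst h
  have h2 := congrArg Prod.snd h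
  simp only [emb] at h1 h2
  exact Prod.ext (by exact_mod_cast h1) (by exact_mod_cast h2)

lemma henon_emb {K : Type*} [Field K] [CharZero K] (F : ℚ[X]) (s : ℤ → ℤ) (m : ℤ)
    (hF : ∀ i : ℤ, 0 ≤ i → i < m → F.eval (i : ℚ) = (s i : ℚ)) (P : ℤ × ℤ) (hP : Box m P) :
    henon (F.map (algebraMap ℚ K)) 1 (emb K P) = emb K (g s P) := by
  obtain ⟨_, _, h3, h4⟩ := hP
  have h5 : (F.map (algebraMap ℚ K)).eval ((P.2 : ℤ) : K) = ((s P.2 : ℤ) : K) := by
    have h6 : ((P.2 : ℤ) : K) = algebraMap ℚ K (P.2 : ℚ) := by simp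
    rw [h6, eval_map_algebraMap, Polynomial.aeval_algebraMap_apply]
    have h7 := hF P.2 h3 h4
    rw [Polynomial.coe_aeval_eq_eval, h7]
    simp
  simp only [henon, emb, g, h5]
  push_cast
  simp

lemma iterate_emb {K : Type*} [Field K] [CharZero K] (F : ℚ[X]) (s : ℤ → ℤ) (m : ℤ)
    (hF : ∀ i : ℤ, 0 ≤ i → i < m → F.eval (i : ℚ) = (s i : ℚ)) (P : ℤ × ℤ) (n : ℕ)
    (hP : ∀ i < n, Box m ((g s)^[i] P)) :
    (henon (F.map (algebraMap ℚ K)) 1)^[n] (emb K P) = emb K ((g s)^[n] P) := by
  induction n with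
  | zero => rfl
  | succ n ih =>
    rw [Function.iterate_succ_apply', ih (fun i hi => hP i (by omega)),
      Function.iterate_succ_apply', henon_emb F s m hF _ (hP n (by omega))]

/-- Time reversal. -/
lemma g_swap_g (s : ℤ → ℤ) (P : ℤ × ℤ) : g s (g s P).swap = P.swap := by
  simp [g, Prod.swap]

lemma iterate_swap (s : ℤ → ℤ) (P : ℤ × ℤ) (n : ℕ) : (g s)^[n] ((g s)^[n] P).swap = P.swap := by
  induction n generalizing P with
  | zero => rfl
  | succ n ih =>
    rw [Function.iterate_succ_apply, Function.iterate_succ_apply', g_swap_g, ih]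

end Pool.Agent.Q280.Hen
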