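import Pool.Agent.Q280.Hen.Basic

/-!
# A long cycle of the model map

Helper file for `MP_0e6b5f_nt.QuadraticPeriods`.
-/

set_option autoImplicit false
set_option linter.unnecessarySeqFocus false
set_option linter.unusedTactic false
set_option linter.unreachableTactic false
set_option linter.unusedVariables false

namespace Pool.Agent.Q280.Hen

/-- The prescribed values on `[0, 4 W + 4)`. -/
def sv (W y : ℤ) : ℤ :=
  if y = 1 then 6
  else if y = 4 * W + 1 then (if W % 2 = 0 then 0 else 8 * W)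
  else if y % 4 = 0 then (if y = 0 ∨ y = 4 * W then 4 * W + 7 else 4 * W + 3)
  else if y % 4 = 1 then (if (y / 4) % 2 = 0 then 4 * W - 1 else 4 * W + 7)
  else 4 * W + 3

/-- The state number `j` of the row `V`. -/
def st (W V j : ℤ) : ℤ × ℤ := (if V % 2 = 1 then 4 * (W - j) else 4 * j, 4 * V + 1)

/-- A point of the box which is not on the line `y = 1`. -/
def Good (W : ℤ) (P : ℤ × ℤ) : Prop := Box (4 * W + 4) P ∧ P.2 ≠ 1

/-- `n` steps lead from `P` to `Q`, and all points on the way (also `P` and `Q`) are good. -/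
def Path (W : ℤ) (n : ℕ) (P Q : ℤ × ℤ) : Prop :=
  (g (sv W))^[n] P = Q ∧ ∀ i ≤ n, Good W ((g (sv W))^[i] P)

lemma Path.refl {W : ℤ} {P : ℤ × ℤ} (h : Good W P) : Path W 0 P P :=
  ⟨rfl, fun i hi => by
    obtain rfl : i = 0 := by omega
    exact h⟩

lemma Path.trans {W : ℤ} {n m : ℕ} {P Q T : ℤ × ℤ} (h1 : Path W n P Q) (h2 : Path W m Q T) :
    Path W (n + m) P T := by
  refine ⟨?_, fun i hi => ?_⟩
  · rw [Nat.add_comm, Function.iterate_add_apply, h1.1, h2.1]
  · rcases Nat.lt_or_ge i n with h | h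
    · exact h1.2 i h.le
    · obtain ⟨k, rfl⟩ := Nat.exists_eq_add_of_le h
      rw [Nat.add_comm, Function.iterate_add_apply, h1.1]
      exact h2.2 k (by omega)

lemma Path.one {W : ℤ} {P Q : ℤ × ℤ} (h : g (sv W) P = Q) (hP : Good W P) (hQ : Good W Q) :
    Path W 1 P Q := by
  refine ⟨h, fun i hi => ?_⟩
  interval_cases i
  · exact hP
  · simpa [h] using hQ

/-- Four explicit steps. -/
lemma Path.four {W : ℤ} {P Q : ℤ × ℤ} (A B C : ℤ × ℤ) (h1 : g (sv W) P = A)
    (h2 : g (sv W) A = B) (h3 : g (sv W) B = C) (h4 : g (sv W) C = Q)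
    (hP : Good W P) (hA : Good W A) (hB : Good W B) (hC : Good W C) (hQ : Good W Q) :
    Path W 4 P Q :=
  (((Path.one h1 hP hA).trans (Path.one h2 hA hB)).trans (Path.one h3 hB hC)).trans
    (Path.one h4 hC hQ)

lemma sv_mod0 {W y : ℤ} (k : ℤ) (hy : y = 4 * k) (h0 : k ≠ 0) (hW : k ≠ W) :
    sv W y = 4 * W + 3 := by
  subst hy
  simp only [sv]
  split_ifs <;> omega

lemma sv_end {W y : ℤ} (k : ℤ) (hy : y = 4 * k) (h0 : k = 0 ∨ k = W) :
    sv W y = 4 * W + 7 := by
  subst hy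
  simp only [sv]
  split_ifs <;> omega

lemma sv_even {W y : ℤ} (k : ℤ) (hy : y = 4 * k + 1) (h0 : k ≠ 0) (hW : k ≠ W)
    (hk : k % 2 = 0) : sv W y = 4 * W - 1 := by
  subst hy
  simp only [sv]
  split_ifs <;> omega

lemma sv_odd {W y : ℤ} (k : ℤ) (hy : y = 4 * k + 1) (h0 : k ≠ 0) (hW : k ≠ W)
    (hk : k % 2 = 1) : sv W y = 4 * W + 7 := by
  subst hy
  simp only [sv]
  split_ifs <;> omega

lemma sv_two {W y : ℤ} (k : ℤ) (hy : y = 4 * k + 2) : sv W y = 4 * W + 3 := by
  subst hy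
  simp only [sv]
  split_ifs <;> omega

lemma sv_three {W y : ℤ} (k : ℤ) (hy : y = 4 * k + 3) : sv W y = 4 * W + 3 := by
  subst hy
  simp only [sv]
  split_ifs <;> omega

lemma good_iff {W a b : ℤ} : Good W (a, b) ↔ 0 ≤ a ∧ a < 4 * W + 4 ∧ 0 ≤ b ∧ b < 4 * W + 4 ∧
    b ≠ 1 := by
  simp only [Good, Box]
  tauto

/-- One block inside an odd row. -/
lemma block_odd {W V j : ℤ} (hV : 1 ≤ V) (hVW : V < W) (hVo : V % 2 = 1) (hj : 0 ≤ j)
    (hjW : j + 1 < W) : Path W 4 (st W V j) (st W V (j + 1)) := by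
  have e1 : st W V j = (4 * (W - j), 4 * V + 1) := by simp [st, hVo]
  have e2 : st W V (j + 1) = (4 * (W - (j + 1)), 4 * V + 1) := by simp [st, hVo]
  rw [e1, e2]
  refine Path.four (4 * V + 1, 4 * (1 + j) + 3) (4 * (1 + j) + 3, 4 * (W - V) + 2)
    (4 * (W - V) + 2, 4 * (W - (j + 1))) ?_ ?_ ?_ ?_ ?_ ?_ ?_ ?_ ?_
  · simp only [g]
    rw [sv_odd V rfl (by omega) (by omega) hVo]
    ext <;> simp <;> ring
  · simp only [g]
    rw [sv_three (1 + j) rfl]
    ext <;> simp <;> ring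
  · simp only [g]
    rw [sv_two (W - V) rfl]
    ext <;> simp <;> ring
  · simp only [g]
    rw [sv_mod0 (W - (j + 1)) rfl (by omega) (by omega)]
    ext <;> simp <;> ring
  all_goals rw [good_iff]; omega

/-- One block inside an even row. -/
lemma block_even {W V j : ℤ} (hV : 1 ≤ V) (hVW : V < W) (hVo : V % 2 = 0) (hj : 0 ≤ j)
    (hjW : j + 1 < W) : Path W 4 (st W V j) (st W V (j + 1)) := by
  have e1 : st W V j = (4 * j, 4 * V + 1) := by simp [st, hVo]
  have e2 : st W V (j + 1) = (4 * (j + 1), 4 * V + 1) := by simp [st, hVo]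
  rw [e1, e2]
  refine Path.four (4 * V + 1, 4 * (W - 1 - j) + 3) (4 * (W - 1 - j) + 3, 4 * (W - V) + 2)
    (4 * (W - V) + 2, 4 * (j + 1)) ?_ ?_ ?_ ?_ ?_ ?_ ?_ ?_ ?_
  · simp only [g]
    rw [sv_even V rfl (by omega) (by omega) hVo]
    ext <;> simp <;> ring
  · simp only [g]
    rw [sv_three (W - 1 - j) rfl]
    ext <;> simp <;> ring
  · simp only [g]
    rw [sv_two (W - V) rfl]
    ext <;> simp <;> ring
  · simp only [g]
    rw [sv_mod0 (j + 1) rfl (by omega) (by omega)]
    ext <;> simp <;> ring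
  all_goals rw [good_iff]; omega

/-- From an odd row to the next row. -/
lemma turn_odd {W V : ℤ} (hV : 1 ≤ V) (hVW : V < W) (hVo : V % 2 = 1) :
    Path W 4 (st W V (W - 1)) (st W (V + 1) 0) := by
  have e1 : st W V (W - 1) = (4, 4 * V + 1) := by simp [st, hVo]
  have e2 : st W (V + 1) 0 = (0, 4 * V + 5) := by
    have : (V + 1) % 2 ≠ 1 := by omega
    simp only [st, if_neg this]
    ext <;> simp <;> ring
  rw [e1, e2]
  refine Path.four (4 * V + 1, 4 * W + 3) (4 * W + 3, 4 * (W - V) + 2)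
    (4 * (W - V) + 2, 0) ?_ ?_ ?_ ?_ ?_ ?_ ?_ ?_ ?_
  · simp only [g]
    rw [sv_odd V rfl (by omega) (by omega) hVo]
    ext <;> simp <;> ring
  · simp only [g]
    rw [sv_three W rfl]
    ext <;> simp <;> ring
  · simp only [g]
    rw [sv_two (W - V) rfl]
    ext <;> simp <;> ring
  · simp only [g]
    rw [sv_end 0 (by norm_num) (Or.inl rfl)]
    ext <;> simp <;> ring
  all_goals rw [good_iff]; omega

/-- From an even row to the next row. -/
lemma turn_even {W V : ℤ} (hV : 1 ≤ V) (hVW : V < W) (hVo : V % 2 = 0) :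
    Path W 4 (st W V (W - 1)) (st W (V + 1) 0) := by
  have e1 : st W V (W - 1) = (4 * (W - 1), 4 * V + 1) := by simp [st, hVo]
  have e2 : st W (V + 1) 0 = (4 * W, 4 * V + 5) := by
    have : (V + 1) % 2 = 1 := by omega
    simp only [st, if_pos this]
    ext <;> simp <;> ring
  rw [e1, e2]
  refine Path.four (4 * V + 1, 3) (3, 4 * (W - V) + 2)
    (4 * (W - V) + 2, 4 * W) ?_ ?_ ?_ ?_ ?_ ?_ ?_ ?_ ?_
  · simp only [g]
    rw [sv_even V rfl (by omega) (by omega) hVo]
    ext <;> simp <;> ring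
  · simp only [g]
    rw [sv_three 0 (by norm_num)]
    ext <;> simp <;> ring
  · simp only [g]
    rw [sv_two (W - V) rfl]
    ext <;> simp <;> ring
  · simp only [g]
    rw [sv_end W rfl (Or.inr rfl)]
    ext <;> simp <;> ring
  all_goals rw [good_iff]; omega

lemma good_st {W V j : ℤ} (hV : 1 ≤ V) (hVW : V ≤ W) (hj : 0 ≤ j) (hjW : j ≤ W) :
    Good W (st W V j) := by
  simp only [st]
  rw [good_iff]
  split_ifs <;> omega

/-- A whole row. -/
lemma row (w : ℕ) {V : ℤ} (hV : 1 ≤ V) (hVW : V < w + 1) (j : ℕ) (hj : j ≤ w) :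
    Path ((w : ℤ) + 1) (4 * j) (st (w + 1) V 0) (st (w + 1) V j) := by
  induction j with
  | zero =>
    have := Path.refl (good_st (W := (w : ℤ) + 1) (V := V) (j := 0) hV (by omega) le_rfl (by omega))
    simpa using this
  | succ j ih =>
    have h1 := ih (by omega)
    have h2 : Path ((w : ℤ) + 1) 4 (st (w + 1) V j) (st (w + 1) V (j + 1)) := by
      rcases Int.emod_two_eq_zero_or_one V with h | h
      · exact block_even hV hVW h (by omega) (by omega)
      · exact block_odd hV hVW h (by omega) (by omega)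
    have h3 := h1.trans h2
    have e : 4 * j + 4 = 4 * (j + 1) := by ring
    rw [e] at h3
    push_cast
    exact h3

/-- All rows. -/
lemma rows (w V : ℕ) (hV : V ≤ w) :
    Path ((w : ℤ) + 1) (4 * ((w + 1) * V)) (st (w + 1) 1 0) (st (w + 1) ((V : ℤ) + 1) 0) := by
  induction V with
  | zero =>
    have := Path.refl (good_st (W := (w : ℤ) + 1) (V := 1) (j := 0) le_rfl (by omega) le_rfl
      (by omega))
    simpa using this
  | succ V ih =>
    have h1 := ih (by omega)
    have h2 := row w (V := (V : ℤ) + 1) (by omega) (by omega) w le_rfl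
    have h3 : Path ((w : ℤ) + 1) 4 (st (w + 1) ((V : ℤ) + 1) w)
        (st (w + 1) ((V : ℤ) + 1 + 1) 0) := by
      have e : (w : ℤ) = (w + 1) - 1 := by ring
      rcases Int.emod_two_eq_zero_or_one ((V : ℤ) + 1) with h | h
      · have := turn_even (W := (w : ℤ) + 1) (V := (V : ℤ) + 1) (by omega) (by omega) h
        rwa [← e] at this
      · have := turn_odd (W := (w : ℤ) + 1) (V := (V : ℤ) + 1) (by omega) (by omega) h
        rwa [← e] at this
    have h4 := (h1.trans h2).trans h3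
    have e : 4 * ((w + 1) * V) + 4 * w + 4 = 4 * ((w + 1) * (V + 1)) := by ring
    rw [e] at h4
    push_cast
    exact h4

/-- The first steps. -/
lemma start (w : ℕ) : Path ((w : ℤ) + 1) 3 (1, 3) (st (w + 1) 1 0) := by
  have e2 : st ((w : ℤ) + 1) 1 0 = (4 * ((w : ℤ) + 1), 5) := by simp [st]
  rw [e2]
  set W : ℤ := (w : ℤ) + 1 with hW
  have h1 : g (sv W) (1, 3) = (3, 4 * W + 2) := by
    simp only [g]
    rw [sv_three 0 (by norm_num)]
    ext <;> simp <;> ring
  have h2 : g (sv W) (3, 4 * W + 2) = (4 * W + 2, 4 * W) := by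
    simp only [g]
    rw [sv_two W rfl]
    ext <;> simp <;> ring
  have h3 : g (sv W) (4 * W + 2, 4 * W) = (4 * W, 5) := by
    simp only [g]
    rw [sv_end W rfl (Or.inr rfl)]
    ext <;> simp <;> ring
  have g0 : Good W (1, 3) := by rw [good_iff]; omega
  have g1 : Good W (3, 4 * W + 2) := by rw [good_iff]; omega
  have g2 : Good W (4 * W + 2, 4 * W) := by rw [good_iff]; omega
  have g3 : Good W (4 * W, 5) := by rw [good_iff]; omega
  exact ((Path.one h1 g0 g1).trans (Path.one h2 g1 g2)).trans (Path.one h3 g2 g3)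

/-- The half cycle. -/
lemma half (w : ℕ) : Path ((w : ℤ) + 1) (3 + 4 * ((w + 1) * w)) (1, 3)
    (st (w + 1) ((w : ℤ) + 1) 0) :=
  (start w).trans (rows w w le_rfl)

end Pool.Agent.Q280.Hen
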